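import Pool.Agent.Q4.SPC.Stm

/-!
# Project SPC, job SE1: elementary symplectic matrices are products of commutators
-/

set_option autoImplicit false

open Matrix

namespace Q184.SPC

open Q4.SPC

variable {R : Type} [CommRing R] {n : ℕ}

/-- `up S` is in the subgroup `C` -/
def K (C : Subgroup (Sp n R)) (S : Matrix (Fin n) (Fin n) R) : Prop :=
  ∃ h : Sᵀ = S, up S h ∈ C

theorem K.add {C : Subgroup (Sp n R)} {S T : Matrix (Fin n) (Fin n) R} (h1 : K C S) (h2 : K C T) :
    K C (S + T) := by
  obtain ⟨hS, h1⟩ := h1
  obtain ⟨hT, h2⟩ := h2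
  refine ⟨by rw [transpose_add, hS, hT], ?_⟩
  rw [← up_mul S T hS hT]
  exact C.mul_mem h1 h2

theorem K.neg {C : Subgroup (Sp n R)} {S : Matrix (Fin n) (Fin n) R} (h1 : K C S) :
    K C (-S) := by
  obtain ⟨hS, h1⟩ := h1
  refine ⟨by rw [transpose_neg, hS], ?_⟩
  rw [← up_inv S hS]
  exact C.inv_mem h1

theorem K.sub {C : Subgroup (Sp n R)} {S T : Matrix (Fin n) (Fin n) R} (h1 : K C S) (h2 : K C T) :
    K C (S - T) := by
  rw [sub_eq_add_neg]
  exact h1.add h2.neg

theorem K.zero (C : Subgroup (Sp n R)) : K C (0 : Matrix (Fin n) (Fin n) R) := by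
  refine ⟨by simp, ?_⟩
  rw [up_zero]
  exact C.one_mem

theorem K.sum {C : Subgroup (Sp n R)} {α : Type} (s : Finset α)
    (f : α → Matrix (Fin n) (Fin n) R) (h : ∀ a ∈ s, K C (f a)) : K C (∑ a ∈ s, f a) :=
  Finset.sum_induction f (K C) (fun _ _ => K.add) (K.zero C) h

theorem decomp (S : Matrix (Fin n) (Fin n) R) (hS : Sᵀ = S) :
    S = ∑ i, ∑ j, ((if i < j then single i j (S i j) else 0) +
      (if i < j then single j i (S i j) else 0) + (if i = j then single i j (S i j) else 0)) := by
  have h1 : ∀ i j, S j i = S i j := fun i j => congrFun (congrFun hS i) j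
  have h2 : ∑ i, ∑ j, (if i < j then single j i (S i j) else 0 : Matrix (Fin n) (Fin n) R) =
      ∑ i, ∑ j, (if j < i then single i j (S i j) else 0) := by
    rw [Finset.sum_comm]
    refine Finset.sum_congr rfl fun i _ => Finset.sum_congr rfl fun j _ => ?_
    rw [h1 i j]
  simp only [Finset.sum_add_distrib]
  rw [h2]
  simp only [← Finset.sum_add_distrib]
  conv_lhs => rw [matrix_eq_sum_single S]
  refine Finset.sum_congr rfl fun i _ => Finset.sum_congr rfl fun j _ => ?_
  rcases lt_trichotomy i j with h | h | h
  · rw [if_pos h, if_neg (not_lt.2 h.le), if_neg h.ne, add_zero, add_zero]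
  · rw [if_neg h.not_lt, if_neg h.symm.not_lt, if_pos h, zero_add, zero_add]
  · rw [if_neg (not_lt.2 h.le), if_pos h, if_neg h.ne', zero_add, add_zero]

theorem K_all {C : Subgroup (Sp n R)} (hd : ∀ i b, K C (single i i b))
    (hs : ∀ i j, i ≠ j → ∀ b, K C (single i j b + single j i b))
    (S : Matrix (Fin n) (Fin n) R) (hS : Sᵀ = S) : K C S := by
  rw [decomp S hS]
  refine K.sum _ _ fun i _ => K.sum _ _ fun j _ => ?_
  rcases lt_trichotomy i j with h | h | h
  · rw [if_pos h, if_pos h, if_neg h.ne, add_zero]
    exact hs i j h.ne _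
  · subst h
    rw [if_neg (lt_irrefl i), if_pos (rfl : i = i), zero_add, zero_add]
    exact hd i _
  · rw [if_neg (not_lt.2 h.le), if_neg (not_lt.2 h.le), if_neg h.ne', zero_add, zero_add]
    exact K.zero C

theorem K_lv (i j : Fin n) (h : i ≠ j) (s : R) (S : Matrix (Fin n) (Fin n) R) (hS : Sᵀ = S) :
    K (commutator (Sp n R)) (transvection i j s * S * transvection j i s - S) := by
  have h1 : lvt i j h s * up S hS * (lvt i j h s)⁻¹ * (up S hS)⁻¹ ∈ commutator (Sp n R) :=
    Subgroup.commutator_mem_commutator (Subgroup.mem_top (lvt i j h s))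
      (Subgroup.mem_top (up S hS))
  have e1 : (transvection i j s * S * transvection j i s)ᵀ =
      transvection i j s * S * transvection j i s := by
    rw [transpose_mul, transpose_mul, transv_transpose, transv_transpose, hS, Matrix.mul_assoc]
  refine ⟨by rw [transpose_sub, e1, hS], ?_⟩
  have e2 : lvt i j h s * up S hS * (lvt i j h s)⁻¹ * (up S hS)⁻¹ =
      up (transvection i j s * S * transvection j i s - S)
      (by rw [transpose_sub, e1, hS]) := by
    rw [lvt, lv_up, up_inv, up_mul]
    congr 1
    rw [transv_transpose, sub_eq_add_neg]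
  rw [← e2]
  exact h1

theorem K1 (i j : Fin n) (h : i ≠ j) (s t : R) :
    K (commutator (Sp n R)) (single i j (s * t) + single j i (s * t) + single i i (s * s * t)) := by
  have h1 := K_lv i j h s (single j j t) (by simp)
  have e : transvection i j s * single j j t * transvection j i s - single j j t =
      single i j (s * t) + single j i (s * t) + single i i (s * s * t) := by
    rw [transvection, transvection, Matrix.add_mul, Matrix.one_mul, single_mul_single_same,
      Matrix.mul_add, Matrix.mul_one, Matrix.add_mul, single_mul_single_same,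
      single_mul_single_same, mul_comm t s, show s * t * s = s * s * t by ring]
    abel
  rw [e] at h1
  exact h1

theorem K2 (i j k : Fin n) (hij : i ≠ j) (hjk : j ≠ k) (hik : i ≠ k) (s t : R) :
    K (commutator (Sp n R)) (single i k (s * t) + single k i (s * t)) := by
  have h1 := K_lv i j hij s (single j k t + single k j t)
    (by rw [transpose_add, transpose_single, transpose_single, add_comm])
  have z1 : single i j s * single k j t = (0 : Matrix (Fin n) (Fin n) R) :=
    single_mul_single_of_ne s i j k hjk t
  have z2 : single j k t * single j i s = (0 : Matrix (Fin n) (Fin n) R) :=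
    single_mul_single_of_ne t j k j hjk.symm s
  have z3 : single i k (s * t) * single j i s = (0 : Matrix (Fin n) (Fin n) R) :=
    single_mul_single_of_ne (s * t) i k j hjk.symm s
  have z4 : single i j s * single j k t = single i k (s * t) := single_mul_single_same _ _ _ _ _
  have z5 : single k j t * single j i s = single k i (s * t) := by
    rw [single_mul_single_same, mul_comm]
  have e : transvection i j s * (single j k t + single k j t) * transvection j i s -
      (single j k t + single k j t) = single i k (s * t) + single k i (s * t) := by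
    rw [transvection, transvection, Matrix.add_mul, Matrix.one_mul,
      Matrix.mul_add (single i j s), z4, z1, add_zero, Matrix.mul_add, Matrix.mul_one,
      Matrix.add_mul, Matrix.add_mul, z2, z5, z3]
    abel
  rw [e] at h1
  exact h1

theorem K3aux (S T B B' D : Matrix (Fin n) (Fin n) R) (a1 : S * T = B) (a2 : T * S = B')
    (a3 : B * S = D) (a5 : D * T = 0) (a6 : B' * T = 0) :
    fromBlocks 1 S 0 1 * fromBlocks 1 0 T 1 * fromBlocks 1 (-S) 0 1 * fromBlocks 1 0 (-T) 1 =
      fromBlocks (1 + B) (-D) 0 (1 - B') := by
  have e1 : fromBlocks 1 S 0 1 * fromBlocks 1 0 T 1 = fromBlocks (1 + B) S T 1 := by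
    rw [fromBlocks_multiply]
    simp [a1]
  have e2 : fromBlocks (1 + B) S T 1 * fromBlocks 1 (-S) 0 1 =
      fromBlocks (1 + B) (-D) T (1 - B') := by
    rw [fromBlocks_multiply]
    congr 1
    · simp
    · rw [Matrix.mul_neg, Matrix.add_mul, Matrix.one_mul, a3, Matrix.mul_one]
      abel
    · simp
    · rw [Matrix.mul_neg, a2, Matrix.mul_one]
      abel
  have e3 : fromBlocks (1 + B) (-D) T (1 - B') * fromBlocks 1 0 (-T) 1 =
      fromBlocks (1 + B) (-D) 0 (1 - B') := by
    rw [fromBlocks_multiply]
    congr 1
    · rw [Matrix.mul_one, Matrix.neg_mul, Matrix.mul_neg, a5, neg_neg, add_zero]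
    · simp
    · rw [Matrix.mul_one, Matrix.mul_neg, Matrix.sub_mul, Matrix.one_mul, a6]
      abel
    · simp
  rw [e1, e2, e3]

theorem K3 (i j : Fin n) (h : i ≠ j) (b : R)
    (h1 : (single i j (1 : R) + single j i (1 : R))ᵀ = single i j (1 : R) + single j i (1 : R))
    (h2 : (single j j b : Matrix (Fin n) (Fin n) R)ᵀ = single j j b)
    (h3 : (single i i (-b) : Matrix (Fin n) (Fin n) R)ᵀ = single i i (-b)) :
    up (single i j (1 : R) + single j i (1 : R)) h1 * lo (single j j b) h2 *
      (up (single i j (1 : R) + single j i (1 : R)) h1)⁻¹ * (lo (single j j b) h2)⁻¹ =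
      lvt i j h b * up (single i i (-b)) h3 := by
  rw [up_inv, lo_inv]
  refine Subtype.ext ?_
  change fromBlocks 1 (single i j (1 : R) + single j i (1 : R)) 0 1 *
      fromBlocks 1 0 (single j j b) 1 * fromBlocks 1 (-(single i j (1 : R) + single j i (1 : R))) 0 1
      * fromBlocks 1 0 (-(single j j b)) 1 =
    fromBlocks (transvection i j b) 0 0 (transvection j i (-b)) * fromBlocks 1 (single i i (-b)) 0 1
  have a1 : (single i j (1 : R) + single j i (1 : R)) * single j j b = single i j b := by
    rw [Matrix.add_mul, single_mul_single_same, single_mul_single_of_ne (1 : R) j i j h b, add_zero,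
      one_mul]
  have a2 : single j j b * (single i j (1 : R) + single j i (1 : R)) = single j i b := by
    rw [Matrix.mul_add, single_mul_single_of_ne b j j i h.symm 1, single_mul_single_same,
      zero_add, mul_one]
  have a3 : single i j b * (single i j (1 : R) + single j i (1 : R)) = single i i b := by
    rw [Matrix.mul_add, single_mul_single_of_ne b i j i h.symm 1, single_mul_single_same,
      zero_add, mul_one]
  have a5 : single i i b * single j j b = (0 : Matrix (Fin n) (Fin n) R) :=
    single_mul_single_of_ne b i i j h b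
  have a6 : single j i b * single j j b = (0 : Matrix (Fin n) (Fin n) R) :=
    single_mul_single_of_ne b j i j h b
  rw [K3aux _ _ _ _ _ a1 a2 a3 a5 a6, fromBlocks_multiply]
  have a7 : single i j b * single i i (-b) = (0 : Matrix (Fin n) (Fin n) R) :=
    single_mul_single_of_ne b i j i h.symm (-b)
  congr 1
  · simp [transvection]
  · rw [transvection, Matrix.add_mul, a7, Matrix.one_mul, ← single_neg]
    simp
  · simp
  · simp [transvection, ← single_neg, sub_eq_add_neg]

/-- the symmetric matrices -/
theorem allK (hn : 2 ≤ n) (hu : n = 2 → ∃ u : R, IsUnit u ∧ IsUnit (u - 1)) :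
    (∀ (i : Fin n) (b : R), K (commutator (Sp n R)) (single i i b)) ∧
    ∀ i j : Fin n, i ≠ j → ∀ b : R, K (commutator (Sp n R)) (single i j b + single j i b) := by
  have hex : ∀ i : Fin n, ∃ j : Fin n, i ≠ j := by
    intro i
    haveI : Nontrivial (Fin n) := Fin.nontrivial_iff_two_le.2 hn
    obtain ⟨j, hj⟩ := exists_ne i
    exact ⟨j, hj.symm⟩
  rcases Nat.eq_or_lt_of_le hn with h2 | h3
  · obtain ⟨u, hu1, hu2⟩ := hu h2.symm
    obtain ⟨v, hv⟩ := hu1.exists_right_inv
    obtain ⟨w, hw⟩ := hu2.exists_right_inv
    have hd : ∀ (i : Fin n) (b : R), K (commutator (Sp n R)) (single i i b) := by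
      intro i b
      obtain ⟨j, hj⟩ := hex i
      have k1 := K1 i j hj 1 (w * b)
      have k2 := K1 i j hj u (v * (w * b))
      have k3 := k2.sub k1
      have e : single i j (u * (v * (w * b))) + single j i (u * (v * (w * b))) +
          single i i (u * u * (v * (w * b))) -
          (single i j (1 * (w * b)) + single j i (1 * (w * b)) + single i i (1 * 1 * (w * b))) =
          single i i b := by
        have e1 : u * (v * (w * b)) = w * b := by rw [← mul_assoc, hv, one_mul]
        have e2 : u * u * (v * (w * b)) = u * (w * b) := by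
          rw [mul_assoc, e1]
        have e3 : u * (w * b) = w * b + b := by
          linear_combination b * hw
        rw [e1, e2, e3, one_mul, one_mul, one_mul, single_add]
        abel
      rw [e] at k3
      exact k3
    refine ⟨hd, fun i j hij b => ?_⟩
    have k1 := (K1 i j hij 1 b).sub (hd i b)
    have e : single i j (1 * b) + single j i (1 * b) + single i i (1 * 1 * b) - single i i b =
        single i j b + single j i b := by
      rw [one_mul, one_mul, one_mul]
      abel
    rw [e] at k1
    exact k1
  · have hs : ∀ i k : Fin n, i ≠ k → ∀ b : R,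
        K (commutator (Sp n R)) (single i k b + single k i b) := by
      intro i k hik b
      obtain ⟨j, hj⟩ : ∃ j : Fin n, j ∉ ({i, k} : Finset (Fin n)) := by
        by_contra hcon
        push Not at hcon
        have h4 : (Finset.univ : Finset (Fin n)) ⊆ {i, k} := fun j _ => hcon j
        have h5 := Finset.card_le_card h4
        rw [Finset.card_univ, Fintype.card_fin] at h5
        have h6 := Finset.card_le_two (a := i) (b := k)
        omega
      simp only [Finset.mem_insert, Finset.mem_singleton, not_or] at hj
      have k1 := K2 i j k (Ne.symm hj.1) hj.2 hik 1 b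
      rw [one_mul] at k1
      exact k1
    refine ⟨fun i b => ?_, hs⟩
    obtain ⟨j, hj⟩ := hex i
    have k1 := (K1 i j hj 1 b).sub (hs i j hj b)
    have e : single i j (1 * b) + single j i (1 * b) + single i i (1 * 1 * b) -
        (single i j b + single j i b) = single i i b := by
      rw [one_mul, one_mul, one_mul]
      abel
    rw [e] at k1
    exact k1

/-- JOB SE1 -/
theorem t_SE1 : SE1 := by
  intro R _ n hn hu x hx
  obtain ⟨hd, hs⟩ := allK hn hu
  have hup : ∀ (S : Matrix (Fin n) (Fin n) R) (hS : Sᵀ = S), up S hS ∈ commutator (Sp n R) :=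
    fun S hS => (K_all hd hs S hS).2
  have hlo : ∀ (S : Matrix (Fin n) (Fin n) R) (hS : Sᵀ = S), lo S hS ∈ commutator (Sp n R) := by
    intro S hS
    have h1 := symJ_up (-S) (by rw [transpose_neg, hS])
    have h2 : lo (- -S) (by rw [transpose_neg, transpose_neg, hS]) = lo S hS := by
      congr 1
      exact neg_neg S
    rw [← h2, ← h1]
    exact Subgroup.Normal.conj_mem inferInstance _ (hup _ _) _
  rcases hx with ⟨S, hS, e⟩ | ⟨S, hS, e⟩ | ⟨i, j, hij, b, e⟩
  · have : x = up S hS := by
      refine Subtype.ext ?_
      rw [e, one_smul]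
      rfl
    rw [this]
    exact hup S hS
  · have : x = lo S hS := by
      refine Subtype.ext ?_
      rw [e, one_smul]
      rfl
    rw [this]
    exact hlo S hS
  · have e1 : x = lvt i j hij b := by
      refine Subtype.ext ?_
      rw [e, one_mul]
      rfl
    have h1 : (single i j (1 : R) + single j i (1 : R))ᵀ = single i j (1 : R) + single j i (1 : R) := by
      rw [transpose_add, transpose_single, transpose_single, add_comm]
    have h2 : (single j j b : Matrix (Fin n) (Fin n) R)ᵀ = single j j b := transpose_single _ _ _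
    have h3 : (single i i (-b) : Matrix (Fin n) (Fin n) R)ᵀ = single i i (-b) :=
      transpose_single _ _ _
    have h4 := K3 i j hij b h1 h2 h3
    have h5 : x = up (single i j (1 : R) + single j i (1 : R)) h1 * lo (single j j b) h2 *
      (up (single i j (1 : R) + single j i (1 : R)) h1)⁻¹ * (lo (single j j b) h2)⁻¹ *
        (up (single i i (-b)) h3)⁻¹ := by
      rw [h4, mul_inv_cancel_right, e1]
    rw [h5]
    have m1 := hup _ h1
    have m2 := hlo _ h2
    have m3 := hup _ h3
    exact mul_mem (mul_mem (mul_mem (mul_mem m1 m2) (inv_mem m1)) (inv_mem m2)) (inv_mem m3)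

end Q184.SPC
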